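import Pool.Agent.Q24.TA.Main

/-!
A finitely generated torsion-free nilpotent group with a tame automorphism and without Anosov
automorphisms.
-/

namespace Pool.Agent.Results.MP_82b8ed_al.TameNoAnosov

variable {G : Type} [Group G]

/-- `R(φ) < ∞`: a finite set meets every `φ`-conjugacy class (`x = z y φ(z)⁻¹`). -/
def FiniteReidemeister (φ : MulAut G) : Prop :=
  ∃ S : Set G, S.Finite ∧ ∀ y, ∃ x ∈ S, ∃ z, x = z * y * (φ z)⁻¹

/-- Tame: all positive powers have finite Reidemeister number. -/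
def Tame (φ : MulAut G) : Prop := ∀ n : ℕ, 0 < n → FiniteReidemeister (φ ^ n)

/-- `c` is an eigenvalue of `φ`: there are a `φ`-invariant subgroup `B` and a nonzero homomorphism
`l : B → (ℂ, +)` with `l ∘ φ = c l`. -/
def IsEigenvalue (φ : MulAut G) (c : ℂ) : Prop :=
  ∃ (B : Subgroup G) (l : G → ℂ), (∀ b, b ∈ B ↔ φ b ∈ B) ∧
    (∀ a ∈ B, ∀ b ∈ B, l (a * b) = l a + l b) ∧ (∃ b ∈ B, l b ≠ 0) ∧
    ∀ b ∈ B, l (φ b) = c * l b

/-- Anosov: no eigenvalue of absolute value one. -/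
def Anosov (φ : MulAut G) : Prop := ∀ c : ℂ, IsEigenvalue φ c → ‖c‖ ≠ 1

open Pool.Agent.Q24.TA in
theorem result : ∃ (N : Type) (_ : Group N), Group.FG N ∧
    (∀ (g : N) (n : ℕ), 0 < n → g ^ n = 1 → g = 1) ∧ Group.IsNilpotent N ∧
    (∃ φ : MulAut N, Tame φ) ∧ ¬ ∃ φ : MulAut N, Anosov φ := by
  refine ⟨Heis bt, inferInstance, Heis.fg bt, ?_, Heis.isNilpotent bt, ⟨phi, ?_⟩, ?_⟩
  · intro g n hn h
    refine Heis.torsionFree ?_ ?_ g n hn h
    · intro x n hn h
      apply Prod.ext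
      · exact O_torsionFree x.1 n hn (congrArg Prod.fst h)
      · exact O_torsionFree x.2 n hn (congrArg Prod.snd h)
    · intro x n hn h
      apply Prod.ext
      · exact O_torsionFree x.1 n hn (congrArg Prod.fst h)
      · exact W_torsionFree x.2 n hn (congrArg Prod.snd h)
  · intro n hn
    exact phi_tame hn
  · rintro ⟨ψ, hψ⟩
    obtain ⟨l, c, hc, h1, h2, h3, h4⟩ := exists_eigenvalue ψ
    exact hψ c ⟨commutator (Heis bt), l, h1, h2, h3, h4⟩ hc

end Pool.Agent.Results.MP_82b8ed_al.TameNoAnosov
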